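import Pool.Agent.H.MP_1759d0.E

set_option autoImplicit false
open Set Filter Topology

namespace Pool.Agent.Results.MP_1759d0_gt.Main

/-- Riemannian distance of the metric `lam (dx^2 + dy^2)` on the plane. -/
noncomputable def dg (lam : ℂ → ℝ) (p q : ℂ) : ℝ :=
  sInf {L | ∃ γ : ℝ → ℂ, ContDiff ℝ 1 γ ∧ γ 0 = p ∧ γ 1 = q ∧
    L = ∫ t in (0 : ℝ)..1, √(lam (γ t)) * ‖deriv γ t‖}

/-- Gauss curvature. -/
noncomputable def gauss (lam : ℂ → ℝ) (z : ℂ) : ℝ :=
  -Laplacian.laplacian (fun w => Real.log (lam w)) z / (2 * lam z)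

/-- Every Cauchy sequence for `dg` converges for `dg`. -/
def Complete (lam : ℂ → ℝ) : Prop :=
  ∀ x : ℕ → ℂ, (∀ ε > 0, ∃ N, ∀ m ≥ N, ∀ n ≥ N, dg lam (x m) (x n) < ε) →
    ∃ a, Tendsto (fun n => dg lam (x n) a) atTop (𝓝 0)

/-- Hadamard order. -/
noncomputable def ord (lam : ℂ → ℝ) (f : ℂ → ℂ) : EReal :=
  limsup (fun p => ((Real.log (Real.log ‖f p‖) / Real.log (dg lam p 0) : ℝ) : EReal))
    (cocompact ℂ ⊓ 𝓟 {p | 1 < ‖f p‖})

open Pool.Agent.H.MP_1759d0 in
theorem result (lam : ℂ → ℝ) (hs : ContDiff ℝ 2 lam) (hpos : ∀ z, 0 < lam z) (c : ℝ) (hc : 0 < c)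
    (hK : ∀ z, -c ≤ gauss lam z ∧ gauss lam z ≤ 0) (hcomp : Complete lam) :
    (∃ C > 0, ∀ z : ℂ, Real.log (1 + ‖z‖ ^ 2) ≤ C * dg lam z 0) ∧ ord lam (fun z => z) ≤ 1 ∧
      ∃ f : ℂ → ℂ, Differentiable ℂ f ∧ (∃ z w, f z ≠ f w) ∧ ord lam f ≤ 1 := by
  have hv := hs.log fun z => (hpos z).ne'
  have e : dg lam = dst (wt fun w => Real.log (lam w)) := by
    have : (wt fun w => Real.log (lam w)) = fun z => √(lam z) := funext fun z => by
      rw [wt, Real.exp_half, Real.exp_log (hpos z)]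
    rw [this]
    rfl
  obtain ⟨C, C0, hC⟩ := grow hv hc.le (fun z => by
    obtain ⟨a, b⟩ := hK z
    have := hpos z
    rw [gauss, InnerProductSpace.laplacian_eq_iteratedFDeriv_complexPlane] at a b
    simp only [iteratedFDeriv_two_apply, Matrix.cons_val_zero, Matrix.cons_val_one] at a b
    rw [le_div_iff₀ (by positivity)] at a
    rw [div_le_iff₀ (by positivity)] at b
    rw [L, Real.exp_log this]
    constructor <;> linarith) (dprop (wtc hv) wt0 (e ▸ hcomp))
  rw [← e] at hC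
  have t : Tendsto (fun z => Real.log (dg lam z 0)) (cocompact ℂ) atTop :=
    Real.tendsto_log_atTop.comp (tendsto_atTop_mono (fun z => (div_le_iff₀' C0).2 (hC z))
      ((Real.tendsto_log_atTop.comp (tendsto_atTop_add_const_left _ 1
        ((tendsto_pow_atTop two_ne_zero).comp tendsto_norm_cocompact_atTop))).atTop_div_const C0))
  have o : ord lam (fun z => z) ≤ 1 := by
    refine (limsup_le_iff').2 fun y hy => ?_
    have u := (continuous_coe_real_ereal.tendsto _).comp ((t.const_div_atTop (Real.log C)).add_const 1)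
    rw [zero_add] at u
    rw [eventually_inf_principal]
    filter_upwards [u.eventually (ge_mem_nhds hy), t.eventually_gt_atTop 0] with z a b hz
    refine le_trans (EReal.coe_le_coe ?_) a
    have l := Real.log_pos hz
    have m : Real.log ‖z‖ ≤ C * dg lam z 0 := (Real.log_le_log (zero_lt_one.trans hz)
      (by nlinarith [sq_nonneg (‖z‖ - 1), norm_nonneg z])).trans (hC z)
    have := Real.log_le_log l m
    rw [Real.log_mul C0.ne' (pos_of_mul_pos_right (l.trans_le m) C0.le).ne'] at this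
    beta_reduce
    rw [div_add_one b.ne']
    gcongr
  exact ⟨⟨C, C0, hC⟩, o, _, differentiable_id, ⟨0, 1, zero_ne_one⟩, o⟩

end Pool.Agent.Results.MP_1759d0_gt.Main
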